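import Mathlib

/-!
A counterexample to the conjecture that on a chordal graph every target has an extremal
configuration supported on simplicial vertices.

The graph is a split graph on seven vertices: `0,1,2,3` form a clique, `4` is joined to `0,1,2`,
`5` is joined to `2,3` and `6` is joined to `1,3`.  The target asks for one pebble on each of
`4,5,6`.
-/

namespace Pool.Agent.Results.MP_294a3d_co.Disproof

/-- One pebbling step: for adjacent `u, v`, remove two pebbles from `u` and add one to `v`. -/
def Step {V : Type} [DecidableEq V] (G : SimpleGraph V) (C C' : V → ℕ) : Prop :=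
  ∃ u v, G.Adj u v ∧ 2 ≤ C u ∧
    C' = fun x => if x = u then C u - 2 else if x = v then C v + 1 else C x

/-- `C` is `D`-solvable: some finite sequence of pebbling steps reaches a configuration with at
least `D v` pebbles on every vertex `v`. -/
def Solvable {V : Type} [DecidableEq V] (G : SimpleGraph V) (D C : V → ℕ) : Prop :=
  ∃ C', Relation.ReflTransGen (Step G) C C' ∧ ∀ v, D v ≤ C' v

/-- The size of a configuration. -/
def size {V : Type} [Fintype V] (C : V → ℕ) : ℕ := ∑ v, C v

/-- `C` is `D`-maximal: it is unsolvable, and adding one pebble anywhere makes it solvable. -/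
def IsMaximal {V : Type} [DecidableEq V] (G : SimpleGraph V) (D C : V → ℕ) : Prop :=
  ¬ Solvable G D C ∧ ∀ v, Solvable G D (fun x => if x = v then C x + 1 else C x)

/-- `C` is `D`-extremal: it is `D`-maximal and of maximum size among `D`-maximal
configurations. -/
def IsExtremal {V : Type} [DecidableEq V] [Fintype V] (G : SimpleGraph V) (D C : V → ℕ) : Prop :=
  IsMaximal G D C ∧ ∀ C', IsMaximal G D C' → size C' ≤ size C

/-- A graph is chordal if it has no induced cycle of length at least four. -/
def IsChordal {V : Type} (G : SimpleGraph V) : Prop :=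
  ∀ n, 4 ≤ n → IsEmpty (SimpleGraph.cycleGraph n ↪g G)

/-- A vertex is simplicial if its neighbours form a clique. -/
def IsSimplicial {V : Type} (G : SimpleGraph V) (v : V) : Prop :=
  G.IsClique (G.neighborSet v)

/-! ### The counterexample -/

/-- The adjacency table of the seven-vertex split graph. -/
def adjB (a b : Fin 7) : Bool :=
  a != b && (
    (decide (a.val < 4) && decide (b.val < 4)) ||
    ((a == 4 && (b == 0 || b == 1 || b == 2)) || (b == 4 && (a == 0 || a == 1 || a == 2))) ||
    ((a == 5 && (b == 2 || b == 3)) || (b == 5 && (a == 2 || a == 3))) ||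
    ((a == 6 && (b == 1 || b == 3)) || (b == 6 && (a == 1 || a == 3))))

/-- The seven-vertex split graph. -/
def G₀ : SimpleGraph (Fin 7) where
  Adj a b := adjB a b = true
  symm := ⟨by decide⟩
  loopless := ⟨by decide⟩

instance : DecidableRel G₀.Adj := fun a b => inferInstanceAs (Decidable (adjB a b = true))

/-- The target: one pebble on each of the simplicial vertices `4, 5, 6`. -/
def D₀ : Fin 7 → ℕ := ![0, 0, 0, 0, 1, 1, 1]

theorem step_mono {V : Type} [DecidableEq V] {G : SimpleGraph V} {C C₁ C' : V → ℕ}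
    (h : Step G C C₁) (hle : ∀ v, C v ≤ C' v) : ∃ C₁', Step G C' C₁' ∧ ∀ v, C₁ v ≤ C₁' v := by
  obtain ⟨u, v, huv, h2, rfl⟩ := h
  refine ⟨_, ⟨u, v, huv, le_trans h2 (hle u), rfl⟩, ?_⟩
  intro x
  have hu := hle u
  have hv := hle v
  have hx := hle x
  dsimp only
  split_ifs <;> omega

theorem solvable_mono {V : Type} [DecidableEq V] {G : SimpleGraph V} {D C C' : V → ℕ}
    (h : Solvable G D C) (hle : ∀ v, C v ≤ C' v) : Solvable G D C' := by
  obtain ⟨E, hE, hD⟩ := h
  induction hE using Relation.ReflTransGen.head_induction_on generalizing C' with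
  | refl => exact ⟨C', Relation.ReflTransGen.refl, fun v => le_trans (hD v) (hle v)⟩
  | head h1 _ ih =>
    obtain ⟨C₁', hs, hle'⟩ := step_mono h1 hle
    obtain ⟨E', hE', hD'⟩ := ih hle'
    exact ⟨E', Relation.ReflTransGen.head hs hE', hD'⟩

/-- Run a list of moves and check that the target is met at the end. -/
def runList : List (Fin 7 × Fin 7) → (Fin 7 → ℕ) → Bool
  | [], C => decide (∀ v, D₀ v ≤ C v)
  | (u, v) :: l, C => adjB u v && decide (2 ≤ C u) &&
      runList l (fun x => if x = u then C u - 2 else if x = v then C v + 1 else C x)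

theorem solvable_of_run : ∀ (l : List (Fin 7 × Fin 7)) (C : Fin 7 → ℕ), runList l C = true →
    Solvable G₀ D₀ C
  | [], C, h => ⟨C, Relation.ReflTransGen.refl, by simpa [runList] using h⟩
  | (u, v) :: l, C, h => by
    simp only [runList, Bool.and_eq_true, decide_eq_true_eq] at h
    obtain ⟨E, hE, hD⟩ := solvable_of_run l _ h.2
    exact ⟨E, Relation.ReflTransGen.head ⟨u, v, h.1.1, h.1.2, rfl⟩ hE, hD⟩

/-- The weight of a vertex, `2` to the power of its distance to the vertex `0`. -/
def wt : Fin 7 → ℕ := ![1, 2, 2, 2, 2, 4, 4]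

theorem wt_adj : ∀ u v : Fin 7, adjB u v = true → wt v ≤ 2 * wt u := by decide

theorem step_wt {C C' : Fin 7 → ℕ} (h : Step G₀ C C') :
    ∑ x, wt x * C' x ≤ ∑ x, wt x * C x := by
  obtain ⟨u, v, huv, h2, rfl⟩ := h
  have hw := wt_adj u v huv
  have hne : u ≠ v := G₀.ne_of_adj huv
  have hf : ∀ f : Fin 7 → ℕ, ∑ x, f x = f u + f v + ∑ x ∈ (Finset.univ.erase u).erase v, f x := by
    intro f
    rw [← Finset.add_sum_erase Finset.univ f (Finset.mem_univ u),
      ← Finset.add_sum_erase (Finset.univ.erase u) f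
        (Finset.mem_erase.2 ⟨hne.symm, Finset.mem_univ v⟩)]
    ring
  rw [hf, hf]
  have hrest : ∑ x ∈ (Finset.univ.erase u).erase v,
      wt x * (if x = u then C u - 2 else if x = v then C v + 1 else C x) =
      ∑ x ∈ (Finset.univ.erase u).erase v, wt x * C x := by
    apply Finset.sum_congr rfl
    intro x hx
    simp only [Finset.mem_erase, Finset.mem_univ, and_true] at hx
    simp [hx.1, hx.2]
  rw [hrest]
  simp only [if_true, hne.symm, if_false]
  obtain ⟨c, hc⟩ := Nat.exists_eq_add_of_le h2
  rw [hc]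
  have : 2 + c - 2 = c := by omega
  rw [this]
  nlinarith

theorem reach_wt {C C' : Fin 7 → ℕ} (h : Relation.ReflTransGen (Step G₀) C C') :
    ∑ x, wt x * C' x ≤ ∑ x, wt x * C x := by
  induction h with
  | refl => exact le_rfl
  | tail _ hs ih => exact le_trans (step_wt hs) ih

/-- Nine pebbles on the vertex `0` do not solve the target. -/
theorem unsolvable_nine : ¬ Solvable G₀ D₀ ![9, 0, 0, 0, 0, 0, 0] := by
  rintro ⟨E, hE, hD⟩
  have h := reach_wt hE
  have h4 := hD 4
  have h5 := hD 5
  have h6 := hD 6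
  simp [Fin.sum_univ_succ, wt, D₀] at h h4 h5 h6
  omega

/-! ### Solvability of large configurations -/

theorem stack_solvable : ∀ v : Fin 7, Solvable G₀ D₀ (fun x => if x = v then 10 else 0) := by
  intro v
  fin_cases v
  · exact solvable_of_run [(0, 4), (0, 2), (0, 2), (2, 5), (0, 1), (0, 1), (1, 6)] _ (by decide)
  · exact solvable_of_run [(1, 4), (1, 6), (1, 2), (1, 2), (2, 5)] _ (by decide)
  · exact solvable_of_run [(2, 4), (2, 5), (2, 1), (2, 1), (1, 6)] _ (by decide)
  · exact solvable_of_run [(3, 5), (3, 6), (3, 1), (3, 1), (1, 4)] _ (by decide)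
  · exact solvable_of_run [(4, 2), (4, 2), (2, 5), (4, 1), (4, 1), (1, 6)] _ (by decide)
  · exact solvable_of_run [(5, 2), (5, 2), (2, 4), (5, 3), (5, 3), (3, 6)] _ (by decide)
  · exact solvable_of_run [(6, 1), (6, 1), (1, 4), (6, 3), (6, 3), (3, 5)] _ (by decide)

/-- Every configuration of size at least `64` is solvable. -/
theorem large_solvable (C : Fin 7 → ℕ) (h : 64 ≤ size C) : Solvable G₀ D₀ C := by
  have : ∃ v, 10 ≤ C v := by
    by_contra hcon
    push Not at hcon
    have h1 : size C ≤ ∑ _v : Fin 7, 9 :=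
      Finset.sum_le_sum fun v _ => Nat.lt_succ_iff.1 (hcon v)
    simp at h1
    omega
  obtain ⟨v, hv⟩ := this
  refine solvable_mono (stack_solvable v) fun x => ?_
  by_cases hx : x = v
  · simp only [hx, if_true]; exact hv
  · simp [hx]

theorem simp_solvable (C : Fin 7 → ℕ) (h : 9 ≤ C 4 + C 5 + C 6) : Solvable G₀ D₀ C := by
  have key : ∀ a b c : ℕ, a ≤ C 4 → b ≤ C 5 → c ≤ C 6 →
      Solvable G₀ D₀ ![0, 0, 0, 0, a, b, c] → Solvable G₀ D₀ C := by
    intro a b c ha hb hc hs
    refine solvable_mono hs fun x => ?_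
    fin_cases x
    · exact Nat.zero_le _
    · exact Nat.zero_le _
    · exact Nat.zero_le _
    · exact Nat.zero_le _
    · exact ha
    · exact hb
    · exact hc
  rcases Nat.eq_zero_or_pos (C 4) with h4 | h4 <;> rcases Nat.eq_zero_or_pos (C 5) with h5 | h5 <;>
    rcases Nat.eq_zero_or_pos (C 6) with h6 | h6
  · omega
  · exact key 0 0 9 (by omega) (by omega) (by omega)
      (solvable_of_run [(6, 1), (6, 1), (1, 4), (6, 3), (6, 3), (3, 5)] _ (by decide))
  · exact key 0 9 0 (by omega) (by omega) (by omega)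
      (solvable_of_run [(5, 2), (5, 2), (2, 4), (5, 3), (5, 3), (3, 6)] _ (by decide))
  · rcases Nat.lt_or_ge (C 5) 5 with h | h
    · exact key 0 1 5 (by omega) (by omega) (by omega)
        (solvable_of_run [(6, 1), (6, 1), (1, 4)] _ (by decide))
    · exact key 0 5 1 (by omega) (by omega) (by omega)
        (solvable_of_run [(5, 2), (5, 2), (2, 4)] _ (by decide))
  · exact key 9 0 0 (by omega) (by omega) (by omega)
      (solvable_of_run [(4, 2), (4, 2), (2, 5), (4, 1), (4, 1), (1, 6)] _ (by decide))
  · rcases Nat.lt_or_ge (C 4) 5 with h | h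
    · exact key 1 0 5 (by omega) (by omega) (by omega)
        (solvable_of_run [(6, 3), (6, 3), (3, 5)] _ (by decide))
    · exact key 5 0 1 (by omega) (by omega) (by omega)
        (solvable_of_run [(4, 2), (4, 2), (2, 5)] _ (by decide))
  · rcases Nat.lt_or_ge (C 4) 5 with h | h
    · exact key 1 5 0 (by omega) (by omega) (by omega)
        (solvable_of_run [(5, 3), (5, 3), (3, 6)] _ (by decide))
    · exact key 5 1 0 (by omega) (by omega) (by omega)
        (solvable_of_run [(4, 1), (4, 1), (1, 6)] _ (by decide))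
  · exact key 1 1 1 h4 h5 h6 (solvable_of_run [] _ (by decide))

/-! ### The graph is connected and chordal -/

theorem G₀_connected : G₀.Connected := by
  have hadj0 : ∀ v : Fin 7, v ≠ 0 → ∃ w, adjB v w = true ∧ (w = 0 ∨ adjB w 0 = true) := by decide
  have hreach : ∀ v : Fin 7, G₀.Reachable v 0 := by
    intro v
    by_cases hv : v = 0
    · subst hv; exact SimpleGraph.Reachable.refl _
    · obtain ⟨w, h1, h2⟩ := hadj0 v hv
      have h1' : G₀.Adj v w := h1
      rcases h2 with rfl | h2
      · exact h1'.reachable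
      · have h2' : G₀.Adj w 0 := h2
        exact h1'.reachable.trans h2'.reachable
  exact ⟨fun u v => (hreach u).trans (hreach v).symm⟩

theorem G₀_chordal : IsChordal G₀ := by
  intro n hn
  refine ⟨fun f => ?_⟩
  obtain ⟨m, rfl⟩ : ∃ m, n = m + 4 := ⟨n - 4, by omega⟩
  -- facts about the host graph
  have hK : ∀ a b : Fin 7, a ≠ b → adjB a b = false → ¬ (a.val < 4 ∧ b.val < 4) := by decide
  have hI : ∀ a b : Fin 7, adjB a b = true → a.val < 4 ∨ b.val < 4 := by decide
  -- facts about the cycle
  have hadj : ∀ i : Fin (m + 4), (SimpleGraph.cycleGraph (m + 4)).Adj i (i + 1) := by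
    intro i
    rw [SimpleGraph.cycleGraph_adj (n := m + 2)]
    right
    simp
  have e1 : ((1 : Fin (m + 4)) : ℕ) = 1 := by simp
  have e2 : ((1 + 1 : Fin (m + 4)) : ℕ) = 2 := by
    rw [Fin.val_add, e1, Nat.mod_eq_of_lt (by omega)]
  have e3 : ((1 + 1 + 1 : Fin (m + 4)) : ℕ) = 3 := by
    rw [Fin.val_add, e1, e2, Nat.mod_eq_of_lt (by omega)]
  have h2 : ∀ i : Fin (m + 4), i ≠ i + 1 + 1 := by
    intro i h
    have h0 : (1 + 1 : Fin (m + 4)) = 0 := by
      rw [add_assoc] at h
      exact (left_eq_add.1 h)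
    have := congrArg Fin.val h0
    rw [e2] at this
    simp at this
  have hnadj : ∀ i : Fin (m + 4), ¬ (SimpleGraph.cycleGraph (m + 4)).Adj i (i + 1 + 1) := by
    intro i h
    rw [SimpleGraph.cycleGraph_adj (n := m + 2)] at h
    rcases h with h | h
    · have h3 : (1 + 1 + 1 : Fin (m + 4)) = 0 := by
        have h' : i = 1 + (i + 1 + 1) := sub_eq_iff_eq_add.1 h
        have h'' : i = i + (1 + 1 + 1) := by
          calc i = 1 + (i + 1 + 1) := h'
            _ = i + (1 + 1 + 1) := by rw [add_comm 1 (i + 1 + 1)]; simp only [add_assoc]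
        exact (left_eq_add.1 h'')
      have := congrArg Fin.val h3
      rw [e3] at this
      simp at this
    · have h3 : (1 + 1 : Fin (m + 4)) = 1 := by
        rw [add_assoc i 1 1, add_sub_cancel_left] at h
        exact h
      have := congrArg Fin.val h3
      rw [e2, e1] at this
      omega
  have hinI : ∀ i : Fin (m + 4), ¬ ((f i).val < 4 ∧ (f (i + 1 + 1)).val < 4) := by
    intro i
    refine hK _ _ (fun h => h2 i (f.injective h)) ?_
    have := hnadj i
    rw [← f.map_adj_iff] at this
    simpa [G₀] using this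
  have hedge : ∀ i : Fin (m + 4), (f i).val < 4 ∨ (f (i + 1)).val < 4 := by
    intro i
    refine hI _ _ ?_
    have := hadj i
    rw [← f.map_adj_iff] at this
    exact this
  have a0 := hinI 0
  have a1 := hinI (0 + 1)
  have a2 := hinI (0 + 1 + 1)
  have b0 := hedge 0
  have b1 := hedge (0 + 1)
  have b2 := hedge (0 + 1 + 1)
  have b3 := hedge (0 + 1 + 1 + 1)
  omega

/-! ### The result -/

theorem not_simplicial : ∀ v : Fin 7, v.val < 4 → ¬ IsSimplicial G₀ v := by
  have key : ∀ v : Fin 7, v.val < 4 → ∃ a b : Fin 7, adjB v a = true ∧ adjB v b = true ∧ a ≠ b ∧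
      adjB a b = false := by decide
  intro v hv hs
  obtain ⟨a, b, ha, hb, hab, hn⟩ := key v hv
  have h : adjB a b = true := hs ha hb hab
  rw [hn] at h
  exact Bool.false_ne_true h

/-- **Q1 is false.**  There are a connected chordal graph, a target `D` and a `D`-extremal
configuration `C` such that every `D`-unsolvable configuration of size at least `|C|` has a pebble
on some non-simplicial vertex. -/
theorem result : ∃ (G : SimpleGraph (Fin 7)) (D C : Fin 7 → ℕ),
    G.Connected ∧ IsChordal G ∧ IsExtremal G D C ∧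
    ∀ C' : Fin 7 → ℕ, ¬ Solvable G D C' → size C ≤ size C' →
      ∃ v, 0 < C' v ∧ ¬ IsSimplicial G v := by
  classical
  -- an unsolvable configuration of maximum size
  let P : ℕ → Prop := fun s => ∃ C : Fin 7 → ℕ, ¬ Solvable G₀ D₀ C ∧ size C = s
  have hP9 : P 9 := ⟨![9, 0, 0, 0, 0, 0, 0], unsolvable_nine, by simp [size, Fin.sum_univ_succ]⟩
  have hPb : ∀ s, P s → s ≤ 64 := by
    rintro s ⟨C, hC, rfl⟩
    by_contra h
    exact hC (large_solvable C (by omega))
  obtain ⟨C, hC, hsC⟩ : P (Nat.findGreatest P 64) := Nat.findGreatest_spec (hPb 9 hP9) hP9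
  have hmax : ∀ C' : Fin 7 → ℕ, ¬ Solvable G₀ D₀ C' → size C' ≤ size C := by
    intro C' hC'
    rw [hsC]
    exact Nat.le_findGreatest (hPb _ ⟨C', hC', rfl⟩) ⟨C', hC', rfl⟩
  have hge : 9 ≤ size C := by
    rw [hsC]
    exact Nat.le_findGreatest (hPb 9 hP9) hP9
  refine ⟨G₀, D₀, C, G₀_connected, G₀_chordal, ⟨⟨hC, fun v => ?_⟩, fun C' hC' => hmax C' hC'.1⟩, ?_⟩
  · by_contra hcon
    have h1 := hmax _ hcon
    have h2 : size (fun x => if x = v then C x + 1 else C x) = size C + 1 := by
      unfold size
      rw [← Finset.add_sum_erase Finset.univ _ (Finset.mem_univ v),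
        ← Finset.add_sum_erase Finset.univ C (Finset.mem_univ v)]
      have : ∑ x ∈ Finset.univ.erase v, (if x = v then C x + 1 else C x) =
          ∑ x ∈ Finset.univ.erase v, C x := by
        apply Finset.sum_congr rfl
        intro x hx
        rw [if_neg (Finset.ne_of_mem_erase hx)]
      rw [this]
      simp
      omega
    omega
  · intro C' hC' hsz
    by_contra hcon
    push Not at hcon
    have h0 : ∀ v : Fin 7, v.val < 4 → C' v = 0 := by
      intro v hv
      by_contra hne
      exact not_simplicial v hv (hcon v (Nat.pos_of_ne_zero hne))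
    have e0 := h0 0 (by decide)
    have e1 := h0 1 (by decide)
    have e2 := h0 2 (by decide)
    have e3 := h0 3 (by decide)
    have hs : size C' = C' 0 + C' 1 + C' 2 + C' 3 + C' 4 + C' 5 + C' 6 := by
      unfold size
      rw [Fin.sum_univ_seven]
    exact hC' (simp_solvable C' (by omega))

end Pool.Agent.Results.MP_294a3d_co.Disproof
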